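import Pool.Agent.H20.LIM.Targets
import Pool.Agent.H34.DZ.G

/-!
# Limits of `L`-functions near the critical line: RAT, the quotient of archimedean factors in `L^1`
-/

set_option autoImplicit false

open Complex MeasureTheory Set Filter Topology Metric

namespace Pool.Agent.H89.LIM

open Pool.Agent.H20.LIM Pool.Agent.H23.GLM Pool.Agent.H23.DZ

theorem log_lip (a b : ℂ) : |Real.log (1 + ‖a‖) - Real.log (1 + ‖b‖)| ≤ ‖a - b‖ := by
  have key : ∀ a b : ℂ, Real.log (1 + ‖a‖) - Real.log (1 + ‖b‖) ≤ ‖a - b‖ := by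
    intro a b
    have ha : 0 < 1 + ‖a‖ := by positivity
    have hb : 0 < 1 + ‖b‖ := by positivity
    rw [← Real.log_div ha.ne' hb.ne']
    refine (Real.log_le_sub_one_of_pos (div_pos ha hb)).trans ?_
    rw [div_sub_one hb.ne', div_le_iff₀ hb]
    have h1 : ‖a‖ ≤ ‖a - b‖ + ‖b‖ := by
      have := norm_add_le (a - b) b
      rwa [sub_add_cancel] at this
    nlinarith [norm_nonneg (a - b), norm_nonneg b]
  rw [abs_le]
  constructor
  · have := key b a
    rw [norm_sub_rev] at this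
    linarith
  · exact key a b

theorem ratio_iter (z : ℂ) (x : ℝ) (n : ℕ) : ratio z x = ratio (z + n) (x - n) *
    ∏ i ∈ Finset.range n, ((z - x + 2 * (i : ℂ)) / (2 * (Real.pi : ℂ))) := by
  induction n with
  | zero => simp
  | succ n ih =>
    rw [ih, Pool.Agent.H34.DZ.ratio_rec (z + n) (x - n), Finset.prod_range_succ]
    have e1 : z + ((n + 1 : ℕ) : ℂ) = z + n + 1 := by push_cast; ring
    have e2 : x - ((n + 1 : ℕ) : ℝ) = x - n - 1 := by push_cast; ring
    have e3 : z + n - ((x - n : ℝ) : ℂ) = z - x + 2 * (n : ℂ) := by push_cast; ring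
    rw [e1, e2, e3]
    ring

theorem ratio_flip (z : ℂ) (x : ℝ) (n : ℕ) (h : 0 < (z + x).re) :
    ratio (z + n) (x - n) = (2 * (Real.pi : ℂ)) / (z + x) *
      (ratio (z + n + 1) (n - 1 - x))⁻¹ := by
  have hpi : (Real.pi : ℂ) ≠ 0 := by exact_mod_cast Real.pi_pos.ne'
  have hne : z + x ≠ 0 := by
    intro h0
    rw [h0] at h
    simp at h
  unfold ratio
  have e1 : z + n + ((x - n : ℝ) : ℂ) = z + x := by push_cast; ring
  have e2 : z + n - ((x - n : ℝ) : ℂ) = z - x + 2 * n := by push_cast; ring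
  have e3 : z + n + 1 + ((n - 1 - x : ℝ) : ℂ) = z - x + 2 * n := by push_cast; ring
  have e4 : z + n + 1 - ((n - 1 - x : ℝ) : ℂ) = z + x + 2 := by push_cast; ring
  rw [e1, e2, e3, e4, Gammaℝ_add_two hne, mul_inv, inv_inv]
  field_simp

/-- the shifted centres -/
noncomputable def cc (μ : ℂ) (t : ℝ) (i : ℕ) : ℂ := 1 / 2 + 2 * (i : ℂ) + (t * I - μ)

theorem ratio_bd (n : ℕ) : ∃ K : ℝ, 0 ≤ K ∧ ∀ (w : ℂ) (y : ℝ), 0 < y → y ≤ n → 2 ≤ w.re - y →
    ratio w y ≠ 0 ∧ |Real.log ‖ratio w y‖ - y * Real.log (1 + ‖w‖)| ≤ K := by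
  obtain ⟨C, hC, h1⟩ := Pool.Agent.H34.DZ.g1 n
  obtain ⟨c, hc, h2⟩ := Pool.Agent.H34.DZ.g2 n 2 (by norm_num)
  refine ⟨|Real.log C| + |Real.log c|, by positivity, fun w y hy hyn hw => ?_⟩
  have hwre : 0 ≤ w.re := by linarith
  have g1 := h1 y w hy hyn hwre
  have g2 := h2 y w hy hyn hwre (by
    intro k
    have : (0 : ℝ) ≤ k := Nat.cast_nonneg k
    rw [abs_of_nonneg (by linarith)]
    linarith)
  have hW : 0 < 1 + ‖w‖ := by positivity
  have hWy : 0 < (1 + ‖w‖) ^ y := Real.rpow_pos_of_pos hW y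
  have hpos : 0 < ‖ratio w y‖ := lt_of_lt_of_le (by positivity) g2
  refine ⟨norm_pos_iff.1 hpos, ?_⟩
  have l1 := Real.log_le_log hpos g1
  have l2 := Real.log_le_log (by positivity) g2
  rw [Real.log_mul (by positivity) hWy.ne', Real.log_rpow hW] at l1
  rw [Real.log_mul hc.ne' hWy.ne', Real.log_rpow hW] at l2
  rw [abs_le]
  have := neg_abs_le (Real.log c)
  have := le_abs_self (Real.log C)
  have := abs_nonneg (Real.log C)
  have := abs_nonneg (Real.log c)
  constructor <;> linarith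

theorem norm_cc (μ z : ℂ) (t : ℝ) (i : ℕ) :
    ‖1 / 2 + ((t + z.im : ℝ) : ℂ) * I - μ - (z.re : ℂ) + 2 * (i : ℂ)‖ =
      ‖z - (starRingEnd ℂ) (cc μ t i)‖ := by
  rw [← norm_neg (z - _), ← Complex.norm_conj (-(z - _))]
  congr 1
  simp only [neg_sub, map_sub, Complex.conj_conj]
  unfold cc
  have h : (starRingEnd ℂ) z = (z.re : ℂ) - z.im * I := by
    apply Complex.ext <;> simp
  rw [h]
  push_cast
  ring

theorem point (R : ℝ) (hR : 0 < R) : ∃ (n : ℕ) (K : ℝ), 0 ≤ K ∧ ∀ (μ : ℂ) (t : ℝ) (z : ℂ),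
    μ.re < 1 / 2 → 0 ≤ z.re → ‖z‖ ≤ R → (∀ i < n, z ≠ (starRingEnd ℂ) (cc μ t i)) →
    |Real.log ‖ratio (1 / 2 + (t + z.im : ℝ) * I - μ) z.re‖ -
      z.re * Real.log (1 + ‖t * I - μ‖)| ≤
      ∑ i ∈ Finset.range n, |Real.log ‖z - (starRingEnd ℂ) (cc μ t i)‖ -
        Real.log (1 + ‖(starRingEnd ℂ) (cc μ t i)‖)| +
      |Real.log ‖z - -(cc μ t 0)‖ - Real.log (1 + ‖-(cc μ t 0)‖)| + K := by
  obtain ⟨n, hn⟩ : ∃ n : ℕ, R + 2 ≤ n := exists_nat_ge _
  obtain ⟨K0, hK0, hK⟩ := ratio_bd n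
  refine ⟨n, ∑ i ∈ Finset.range n, (1 / 2 + 2 * (i : ℝ)) + 1 / 2 + (K0 + n * (n + R + 2)) +
    n * |Real.log (2 * Real.pi)|, by positivity, ?_⟩
  intro μ t z hμ hx hz hne
  have hpi : (0 : ℝ) < 2 * Real.pi := by positivity
  set w0 : ℂ := 1 / 2 + ((t + z.im : ℝ) : ℂ) * I - μ with hw0
  set x : ℝ := z.re with hxd
  set b : ℂ := t * I - μ with hb
  set L : ℝ := Real.log (1 + ‖b‖) with hL
  have hxR : x ≤ R := (Complex.re_le_norm z).trans hz
  have hyR : |z.im| ≤ R := (Complex.abs_im_le_norm z).trans hz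
  have hre : w0.re = 1 / 2 - μ.re := by
    rw [hw0]
    simp
  have hre2 : 0 < (w0 + x).re := by
    rw [Complex.add_re, hre, Complex.ofReal_re]
    linarith
  have hne2 : w0 + x ≠ 0 := by
    intro h0
    rw [h0] at hre2
    simp at hre2
  have hrat : ratio w0 x = (2 * (Real.pi : ℂ)) / (w0 + x) * (ratio (w0 + n + 1) (n - 1 - x))⁻¹ *
      ∏ i ∈ Finset.range n, ((w0 - x + 2 * (i : ℂ)) / (2 * (Real.pi : ℂ))) := by
    rw [ratio_iter w0 x n, ratio_flip w0 x n hre2]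
  have hwre : (w0 + n + 1 : ℂ).re = 1 / 2 - μ.re + n + 1 := by
    simp [hre]
  obtain ⟨hr0, hr⟩ := hK (w0 + n + 1) (n - 1 - x) (by linarith) (by linarith) (by
    rw [hwre]
    linarith)
  -- the logarithm
  have hlog : Real.log ‖ratio w0 x‖ = Real.log (2 * Real.pi) - Real.log ‖w0 + x‖ -
      Real.log ‖ratio (w0 + n + 1) (n - 1 - x)‖ +
      ∑ i ∈ Finset.range n, (Real.log ‖z - (starRingEnd ℂ) (cc μ t i)‖ -
        Real.log (2 * Real.pi)) := by
    have h2pi : ‖(2 * (Real.pi : ℂ))‖ = 2 * Real.pi := by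
      rw [norm_mul, Complex.norm_real, Real.norm_of_nonneg Real.pi_pos.le]
      simp
    rw [hrat, norm_mul, norm_mul, norm_div, norm_inv, norm_prod, h2pi]
    have hprod : ∏ i ∈ Finset.range n, ‖(w0 - x + 2 * (i : ℂ)) / (2 * (Real.pi : ℂ))‖ =
        ∏ i ∈ Finset.range n, (‖z - (starRingEnd ℂ) (cc μ t i)‖ / (2 * Real.pi)) := by
      refine Finset.prod_congr rfl fun i _ => ?_
      rw [norm_div, h2pi, ← norm_cc μ z t i]
    have hzp : ∀ i ∈ Finset.range n, ‖z - (starRingEnd ℂ) (cc μ t i)‖ ≠ 0 := by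
      intro i hi
      rw [norm_ne_zero_iff]
      exact sub_ne_zero.2 (hne i (Finset.mem_range.1 hi))
    have hn1 : ‖w0 + (x : ℂ)‖ ≠ 0 := norm_ne_zero_iff.2 hne2
    have hn2 : ‖ratio (w0 + n + 1) (n - 1 - x)‖ ≠ 0 := norm_ne_zero_iff.2 hr0
    rw [hprod, Real.log_mul (mul_ne_zero (div_ne_zero hpi.ne' hn1) (inv_ne_zero hn2))
      (Finset.prod_ne_zero_iff.2 fun i hi => div_ne_zero (hzp i hi) hpi.ne'),
      Real.log_mul (div_ne_zero hpi.ne' hn1) (inv_ne_zero hn2), Real.log_div hpi.ne' hn1,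
      Real.log_inv, Real.log_prod fun i hi => div_ne_zero (hzp i hi) hpi.ne']
    have : ∑ i ∈ Finset.range n, Real.log (‖z - (starRingEnd ℂ) (cc μ t i)‖ / (2 * Real.pi)) =
        ∑ i ∈ Finset.range n, (Real.log ‖z - (starRingEnd ℂ) (cc μ t i)‖ -
          Real.log (2 * Real.pi)) :=
      Finset.sum_congr rfl fun i hi => Real.log_div (hzp i hi) hpi.ne'
    rw [this]
    ring
  -- the terms
  have hA : ∀ i ∈ Finset.range n, |Real.log ‖z - (starRingEnd ℂ) (cc μ t i)‖ - L| ≤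
      |Real.log ‖z - (starRingEnd ℂ) (cc μ t i)‖ -
        Real.log (1 + ‖(starRingEnd ℂ) (cc μ t i)‖)| + (1 / 2 + 2 * (i : ℝ)) := by
    intro i _
    have h1 : |Real.log (1 + ‖(starRingEnd ℂ) (cc μ t i)‖) - L| ≤ 1 / 2 + 2 * (i : ℝ) := by
      rw [Complex.norm_conj]
      refine (log_lip _ _).trans ?_
      have : cc μ t i - b = ((1 / 2 + 2 * (i : ℝ) : ℝ) : ℂ) := by
        unfold cc
        rw [hb]
        push_cast
        ring
      rw [this, Complex.norm_real, Real.norm_of_nonneg (by positivity)]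
    have h2 := abs_sub_le (Real.log ‖z - (starRingEnd ℂ) (cc μ t i)‖)
      (Real.log (1 + ‖(starRingEnd ℂ) (cc μ t i)‖)) L
    linarith
  have hB : |Real.log ‖w0 + x‖ - L| ≤
      |Real.log ‖z - -(cc μ t 0)‖ - Real.log (1 + ‖-(cc μ t 0)‖)| + 1 / 2 := by
    have h0 : w0 + x = z - -(cc μ t 0) := by
      have hz' : z = (z.re : ℂ) + z.im * I := (Complex.re_add_im z).symm
      unfold cc
      rw [hw0, hxd]
      conv_rhs => rw [hz']
      push_cast
      ring
    have h1 : |Real.log (1 + ‖-(cc μ t 0)‖) - L| ≤ 1 / 2 := by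
      rw [norm_neg]
      refine (log_lip _ _).trans ?_
      have : cc μ t 0 - b = ((1 / 2 : ℝ) : ℂ) := by
        unfold cc
        rw [hb]
        push_cast
        ring
      rw [this, Complex.norm_real, Real.norm_of_nonneg (by positivity)]
    have h2 := abs_sub_le (Real.log ‖z - -(cc μ t 0)‖) (Real.log (1 + ‖-(cc μ t 0)‖)) L
    rw [h0]
    linarith
  have hC : |Real.log ‖ratio (w0 + n + 1) (n - 1 - x)‖ - (n - 1 - x) * L| ≤
      K0 + n * (n + R + 2) := by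
    have h1 : |Real.log (1 + ‖w0 + n + 1‖) - L| ≤ n + R + 2 := by
      refine (log_lip _ _).trans ?_
      have e : w0 + n + 1 - b = ((n + 3 / 2 : ℝ) : ℂ) + (z.im : ℂ) * I := by
        rw [hw0, hb]
        push_cast
        ring
      rw [e]
      refine (norm_add_le _ _).trans ?_
      rw [Complex.norm_real, norm_mul, Complex.norm_real, Complex.norm_I, mul_one,
        Real.norm_of_nonneg (by positivity), Real.norm_eq_abs]
      linarith
    have h2 : |(n - 1 - x) * Real.log (1 + ‖w0 + n + 1‖) - (n - 1 - x) * L| ≤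
        n * (n + R + 2) := by
      rw [← mul_sub, abs_mul, abs_of_nonneg (by linarith : (0 : ℝ) ≤ n - 1 - x)]
      exact mul_le_mul (by linarith) h1 (abs_nonneg _) (by positivity)
    have h3 := abs_sub_le (Real.log ‖ratio (w0 + n + 1) (n - 1 - x)‖)
      ((n - 1 - x) * Real.log (1 + ‖w0 + n + 1‖)) ((n - 1 - x) * L)
    linarith
  have hid : Real.log ‖ratio w0 x‖ - x * L =
      ∑ i ∈ Finset.range n, (Real.log ‖z - (starRingEnd ℂ) (cc μ t i)‖ - L) -
      (Real.log ‖w0 + x‖ - L) -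
      (Real.log ‖ratio (w0 + n + 1) (n - 1 - x)‖ - (n - 1 - x) * L) -
      (n - 1) * Real.log (2 * Real.pi) := by
    rw [hlog, Finset.sum_sub_distrib, Finset.sum_sub_distrib, Finset.sum_const, Finset.sum_const,
      Finset.card_range, nsmul_eq_mul, nsmul_eq_mul]
    ring
  have hS : |∑ i ∈ Finset.range n, (Real.log ‖z - (starRingEnd ℂ) (cc μ t i)‖ - L)| ≤
      ∑ i ∈ Finset.range n, |Real.log ‖z - (starRingEnd ℂ) (cc μ t i)‖ -
        Real.log (1 + ‖(starRingEnd ℂ) (cc μ t i)‖)| +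
      ∑ i ∈ Finset.range n, (1 / 2 + 2 * (i : ℝ)) := by
    rw [← Finset.sum_add_distrib]
    exact (Finset.abs_sum_le_sum_abs _ _).trans (Finset.sum_le_sum hA)
  have hP : |((n : ℝ) - 1) * Real.log (2 * Real.pi)| ≤ n * |Real.log (2 * Real.pi)| := by
    rw [abs_mul, abs_of_nonneg (by linarith : (0 : ℝ) ≤ n - 1)]
    exact mul_le_mul_of_nonneg_right (by linarith) (abs_nonneg _)
  rw [hid]
  have t1 := abs_sub (∑ i ∈ Finset.range n, (Real.log ‖z - (starRingEnd ℂ) (cc μ t i)‖ - L) -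
      (Real.log ‖w0 + x‖ - L) -
      (Real.log ‖ratio (w0 + n + 1) (n - 1 - x)‖ - (n - 1 - x) * L))
      ((n - 1) * Real.log (2 * Real.pi))
  have t2 := abs_sub (∑ i ∈ Finset.range n, (Real.log ‖z - (starRingEnd ℂ) (cc μ t i)‖ - L) -
      (Real.log ‖w0 + x‖ - L))
      (Real.log ‖ratio (w0 + n + 1) (n - 1 - x)‖ - (n - 1 - x) * L)
  have t3 := abs_sub (∑ i ∈ Finset.range n, (Real.log ‖z - (starRingEnd ℂ) (cc μ t i)‖ - L))
      (Real.log ‖w0 + x‖ - L)
  linarith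

theorem pf_rat (hLGB : T_LGB) : T_RAT := by
  intro R hR
  obtain ⟨n, K, hK, H⟩ := point R hR
  obtain ⟨C, hC⟩ := hLGB R hR
  have hVfin : volume (closedBall (0 : ℂ) R) ≠ ⊤ := measure_closedBall_lt_top.ne
  refine ⟨n * max C 0 + max C 0 + K * (volume (closedBall (0 : ℂ) R)).toReal, fun μ t hμ => ?_⟩
  have hmeas : ∀ c : ℂ, Measurable fun z : ℂ =>
      ‖Real.log ‖z - c‖ - Real.log (1 + ‖c‖)‖ₑ := by
    intro c
    fun_prop
  have hHD : MeasurableSet (HD R) := measurableSet_closedBall.inter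
    (isClosed_le continuous_const Complex.continuous_re).measurableSet
  have hae : ∀ᵐ z : ℂ, ∀ i : ℕ, z ≠ (starRingEnd ℂ) (cc μ t i) :=
    ae_all_iff.2 fun i => compl_mem_ae_iff.2 (measure_singleton _)
  have hsum : ∀ c : ℂ, ∫⁻ z in closedBall (0 : ℂ) R,
      ‖Real.log ‖z - c‖ - Real.log (1 + ‖c‖)‖ₑ ≤ ENNReal.ofReal (max C 0) := fun c =>
    (hC c).trans (ENNReal.ofReal_le_ofReal (le_max_left _ _))
  calc ∫⁻ z in HD R, ‖Real.log ‖ratio (1 / 2 + (t + z.im : ℝ) * I - μ) z.re‖ -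
        z.re * Real.log (1 + ‖t * I - μ‖)‖ₑ
      ≤ ∫⁻ z in HD R, (∑ i ∈ Finset.range n, ‖Real.log ‖z - (starRingEnd ℂ) (cc μ t i)‖ -
          Real.log (1 + ‖(starRingEnd ℂ) (cc μ t i)‖)‖ₑ +
        ‖Real.log ‖z - -(cc μ t 0)‖ - Real.log (1 + ‖-(cc μ t 0)‖)‖ₑ + ENNReal.ofReal K) := by
        refine lintegral_mono_ae ?_
        filter_upwards [ae_restrict_of_ae hae, ae_restrict_mem hHD] with z hz hzm
        have h1 := H μ t z hμ hzm.2 (by simpa using hzm.1) (fun i _ => hz i)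
        simp only [Real.enorm_eq_ofReal_abs]
        rw [← ENNReal.ofReal_sum_of_nonneg (fun i _ => abs_nonneg _),
          ← ENNReal.ofReal_add (Finset.sum_nonneg fun i _ => abs_nonneg _) (abs_nonneg _),
          ← ENNReal.ofReal_add (add_nonneg (Finset.sum_nonneg fun i _ => abs_nonneg _)
            (abs_nonneg _)) hK]
        exact ENNReal.ofReal_le_ofReal h1
    _ ≤ ∫⁻ z in closedBall (0 : ℂ) R,
        (∑ i ∈ Finset.range n, ‖Real.log ‖z - (starRingEnd ℂ) (cc μ t i)‖ -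
          Real.log (1 + ‖(starRingEnd ℂ) (cc μ t i)‖)‖ₑ +
        ‖Real.log ‖z - -(cc μ t 0)‖ - Real.log (1 + ‖-(cc μ t 0)‖)‖ₑ + ENNReal.ofReal K) :=
        lintegral_mono_set inter_subset_left
    _ = (∑ i ∈ Finset.range n, ∫⁻ z in closedBall (0 : ℂ) R,
          ‖Real.log ‖z - (starRingEnd ℂ) (cc μ t i)‖ -
            Real.log (1 + ‖(starRingEnd ℂ) (cc μ t i)‖)‖ₑ) +
        (∫⁻ z in closedBall (0 : ℂ) R,
          ‖Real.log ‖z - -(cc μ t 0)‖ - Real.log (1 + ‖-(cc μ t 0)‖)‖ₑ) +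
        ENNReal.ofReal K * volume (closedBall (0 : ℂ) R) := by
        rw [lintegral_add_right _ measurable_const, lintegral_add_right _ (hmeas _),
          lintegral_finsetSum _ fun i _ => hmeas _, lintegral_const, Measure.restrict_apply_univ]
    _ ≤ (∑ _i ∈ Finset.range n, ENNReal.ofReal (max C 0)) + ENNReal.ofReal (max C 0) +
        ENNReal.ofReal K * volume (closedBall (0 : ℂ) R) := by
        gcongr
        · exact hsum _
        · exact hsum _
    _ = ENNReal.ofReal (n * max C 0 + max C 0 + K * (volume (closedBall (0 : ℂ) R)).toReal) := by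
        rw [Finset.sum_const, Finset.card_range, nsmul_eq_mul,
          ENNReal.ofReal_add (by positivity) (by positivity),
          ENNReal.ofReal_add (by positivity) (by positivity),
          ENNReal.ofReal_mul (by positivity), ENNReal.ofReal_mul hK, ENNReal.ofReal_natCast,
          ENNReal.ofReal_toReal hVfin]

end Pool.Agent.H89.LIM
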